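import Pool.Agent.H618R2.Skew.T4b
import Pool.Agent.H618R2.Skew.T7
import Pool.Agent.H618R2.Skew.T9

/-!
# MP_381749_lc: perfect matchings of bipartite permutation graphs

The classes `SharpP` and `FP`, Turing reductions and `SharpPHard` are defined in
`Pool/Agent/H527R2/SharpP.lean`, `PolyTime` (Mathlib Turing machines) and the bit code `bits` in
`Pool/Agent/NPC/Defs.lean`, `Staircase` in `Pool/Agent/H618R2/Skew/Model.lean`, the bipartite graph
`BG A` of a square 0-1 matrix and `IsPermutationGraph` in `Pool/Agent/H618R2/Skew/T9.lean`.

The combinatorial development (reduction of the 0-1 permanent to the permanents of staircase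
matrices) is in `Pool/Agent/H618R2/Skew` and `Pool/Agent/H549R2`.
-/

namespace Pool.Agent.Results.MP_381749_lc.BipartitePermutation

open Pool.Agent.H549R2.Convex Pool.Agent.H618R2.Skew Pool.Agent.NPC Pool.Agent.NPC.Cnt
open Pool.Agent.NPC.H618Skew
open Pool.Agent.NPC.H549Convex (LL sqB sqB_poly fp_of_poly)

/-- the list of rows is that of a square matrix -/
def Square (A : List (List Bool)) : Prop := ∀ r ∈ A, r.length = A.length

/-- the number of perfect matchings of the bipartite graph of a square 0-1 matrix -/
noncomputable def numPM (A : List (List Bool)) : ℕ :=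
  Nat.card {M : (BG A).Subgraph // M.IsPerfectMatching}

open Classical in
/-- the same number for the square matrices of staircase shape, `0` for all other inputs -/
noncomputable def numPMStair (A : List (List Bool)) : ℕ :=
  if Square A ∧ Staircase A then numPM A else 0

theorem numPM_eq (A : List (List Bool)) (h : Square A) : numPM A = F A := (F_eq_pm A h).symm

theorem numPMStair_eq : numPMStair = FS := by
  funext A
  by_cases h : Square A
  · by_cases h2 : Staircase A
    · rw [numPMStair, if_pos ⟨h, h2⟩, FS, if_pos h2, numPM_eq A h]
    · rw [numPMStair, if_neg (fun h3 => h2 h3.2), FS, if_neg h2]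
  · have h' : ¬ ∀ r ∈ A, r.length = A.length := h
    rw [numPMStair, if_neg (fun h3 => h h3.1), FS, F, if_neg h']
    simp

theorem redId : RedId := reduction

theorem stairId : StairId := HS_staircase

/-- an algorithm for square staircase matrices puts `#P` into `FP` -/
theorem all_of_stair (g : List Bool → List Bool) (hg : PolyTime g)
    (hgF : ∀ A : List (List Bool), Square A → Staircase A → g (bits A) = (numPM A).bits)
    (f : List Bool → ℕ) (hf : SharpP f) : FP f := by
  have hid : PC (bits : LL → List Bool) (id : List Bool → List Bool) (fun l => bits l) :=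
    (PC.id : PC (bits : LL → List Bool) bits (fun l => l))
  have h1 : PC (bits : LL → List Bool) (id : List Bool → List Bool) (fun l => g (bits l)) :=
    PC.comp (Pool.Agent.H642R2.TMSim.polyTime_toPC hg) hid
  have h2 : PC (bits : LL → List Bool) (bits : List Bool → List Bool) (fun l => g (bits l)) :=
    PC.comp (g := fun x : List Bool => x) (f := fun l : LL => g (bits l)) PC.ofBits h1
  have h3 : Poly (fun l : LL => valB (g (bits l))) := NPC.Poly.valBits h2
  set G : LL → ℕ := fun l => bif sqB l then valB (g (bits l)) else 0 with hG
  have h3' : Poly G := NPC.Poly.cond sqB_poly h3 (NPC.Poly.const 0)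
  have hGF : ∀ B, Staircase B → G B = F B := by
    intro B hB
    by_cases hs : Square B
    · have e : sqB B = true := (sqB_iff B).2 hs
      simp only [hG, e, cond_true]
      rw [hgF B hs hB, valB_bits, numPM_eq B hs]
    · have e : sqB B = false := by
        cases h : sqB B with
        | false => rfl
        | true => exact absurd ((sqB_iff B).1 h) hs
      simp only [hG, e, cond_false]
      have h' : ¬ ∀ r ∈ B, r.length = B.length := hs
      rw [F, if_neg h']
  have h4 : Poly (fun φ : CNF ℕ => psF (φ, (qsF φ).map G)) := by
    have h5 : Poly (fun φ : CNF ℕ => (qsF φ).map G) :=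
      NPC.Poly.map (F := fun (_ : CNF ℕ) B => G B) qsF_p (h3'.comp (NPC.Poly.snd NPC.Poly.id))
    exact psF_p.comp (f := fun φ : CNF ℕ => (φ, (qsF φ).map G)) (NPC.Poly.pair NPC.Poly.id h5)
  have h5 : Poly (fun φ : CNF ℕ => satCount φ) :=
    h4.congr fun φ => psF_correct redId stairId φ G hGF
  obtain ⟨V, p, hV, hf⟩ := hf
  obtain ⟨G', hG', hGf⟩ := parsimonious hV p
  have h6 : Poly G' := PC.comp hG' pc_raw
  have h7 : Poly (fun x : List Bool => satCount (G' x)) := h5.comp (f := G') h6
  have h8 : Poly f := h7.congr fun x => by rw [hf x, ← hGf x]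
  exact fp_of_poly h8

/-- and conversely, if `#P` is in `FP`, then all 0-1 permanents are computed in polynomial time -/
theorem all_graphs (h : ∀ f : List Bool → ℕ, SharpP f → FP f) :
    ∃ g : List Bool → List Bool, PolyTime g ∧
      ∀ A : List (List Bool), Square A → g (bits A) = (numPM A).bits := by
  have h1 : FP (strFn F) := by
    refine (fp_iff redId stairId).2 ⟨_, h _ memS, fun A hA => ?_⟩
    rw [strFn_bits, FS, if_pos hA]
  exact ⟨_, h1, fun A hA => by rw [strFn_bits, numPM_eq A hA]⟩

/-- **Counting perfect matchings of bipartite permutation graphs is `#P`-complete, and Q1 fails iff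
it can be done in polynomial time.**
(1) `#P ⊆ FP` iff some polynomial-time function computes, from every square 0-1 matrix of staircase
(skew Ferrers) shape, the number of perfect matchings of its bipartite graph (its permanent).
(2) `#P ⊆ FP` iff some polynomial-time function computes the number of perfect matchings of every
bipartite graph with parts of equal size, given by its matrix, that is a permutation graph.
(3) The function with value this number for square staircase matrices, and `0` otherwise, is in
`#P` and is `#P`-hard under polynomial-time Turing reductions.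
(4) The graph of a staircase matrix is a permutation graph with the two sides as colour classes, and
every permutation graph whose vertex set is partitioned into two independent sets of size `n` is
isomorphic to the graph of an `n × n` staircase matrix. -/
theorem result :
    ((∀ f : List Bool → ℕ, SharpP f → FP f) ↔
      ∃ g : List Bool → List Bool, PolyTime g ∧
        ∀ A : List (List Bool), Square A → Staircase A → g (bits A) = (numPM A).bits) ∧
    ((∀ f : List Bool → ℕ, SharpP f → FP f) ↔
      ∃ g : List Bool → List Bool, PolyTime g ∧
        ∀ A : List (List Bool), Square A → IsPermutationGraph (BG A) →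
          g (bits A) = (numPM A).bits) ∧
    (SharpP (strFn numPMStair) ∧ SharpPHard (strFn numPMStair)) ∧
    (∀ A : List (List Bool), Staircase A → IsPermutationGraph (BG A) ∧ (BG A).Colorable 2) ∧
    (∀ (V : Type) (G : SimpleGraph V), IsPermutationGraph G → ∀ (n : ℕ) (e : Fin n ⊕ Fin n ≃ V),
      (∀ i j, ¬ G.Adj (e (.inl i)) (e (.inl j))) → (∀ i j, ¬ G.Adj (e (.inr i)) (e (.inr j))) →
      ∃ A : List (List Bool), A.length = n ∧ Square A ∧ Staircase A ∧ Nonempty (BG A ≃g G)) := by
  refine ⟨⟨fun h => ?_, fun ⟨g, hg, hgF⟩ => all_of_stair g hg hgF⟩,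
    ⟨fun h => ?_, fun ⟨g, hg, hgF⟩ => all_of_stair g hg fun A hs hA =>
      hgF A hs (staircase_perm A hA)⟩, ?_, fun A hA => ⟨staircase_perm A hA, BG_colorable A⟩, ?_⟩
  · obtain ⟨g, hg, hgF⟩ := all_graphs h
    exact ⟨g, hg, fun A hs _ => hgF A hs⟩
  · obtain ⟨g, hg, hgF⟩ := all_graphs h
    exact ⟨g, hg, fun A hs _ => hgF A hs⟩
  · rw [numPMStair_eq]
    exact ⟨memS, hardS redId stairId⟩
  · intro V G hG n e hl hr
    obtain ⟨A, h1, h2, h3, h4⟩ := exists_staircase G hG n e hl hr
    exact ⟨A, h1, fun r hr' => by rw [h2 r hr', h1], h3, h4⟩

end Pool.Agent.Results.MP_381749_lc.BipartitePermutation
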