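import Pool.Agent.H877R3.Join.PP
import Pool.Agent.H877R3.Join.Dig

/-!
# Oracles which make counting easy, while relative to their joins it is hard

Above every oracle `C` there are infinitely many oracles `A 0, A 1, A 2, ...`, each of which puts
`#P` into `FP` (and makes `P` and `PSPACE` equal), such that relative to the join of any two of them
there is a function in `#P` whose parity is not even in `PP`, and so which is not in `FP`.
-/

namespace Pool.Agent.Results.MP_381749_lc.CountingInJoins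

open Pool.Agent.NPC Pool.Agent.H620R2.Gauge Pool.Agent.H877R3.Join
open Pool.Agent.H943R3.PP (IsPP)
open Pool.Agent.H274R3.Sharp (IsFPNum CountingEasy IsFPNum.parity)

theorem result (C : Oracle) : ∃ A : ℕ → Oracle,
    (∀ i, Reduces {x | C x = true} {x | A i x = true} ∧ CountingEasy (A i) ∧
      (∀ L, IsPSPACE (A i) L → Reduces L {x | A i x = true}) ∧
      ∀ L, IsP (A i) L ↔ IsPSPACE (A i) L) ∧
    ∀ i j, i ≠ j →
      ∃ f, Pool.Agent.H274R3.Sharp.IsSharpP (join (A i) (A j)) f ∧
        ¬ IsPP (join (A i) (A j)) {x | Odd (f x)} ∧ ¬ IsFPNum (join (A i) (A j)) f := by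
  obtain ⟨A, h1, h2⟩ := main4 C
  refine ⟨A, fun i => ⟨(h1 i).1, countingEasy (h1 i).2.1, (h1 i).2.1, (h1 i).2.2⟩,
    fun i j hij => ?_⟩
  obtain ⟨f, ⟨V, p, hV, hf⟩, _, h5⟩ := (h2 i j hij).2
  exact ⟨f, ⟨V, p, hV, hf⟩, h5, fun h => h5 (isPP_of_isBPP (isBPP_of_isP h.parity))⟩

end Pool.Agent.Results.MP_381749_lc.CountingInJoins
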