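import Pool.Agent.H274R3.Sharp.Final

set_option autoImplicit false

/-!
# For how many oracles is counting easy?

The set of oracles `A` with `#P^A ⊆ FP^A` is measured by gauges `f` (the weight of an initial
segment `σ` is `2 ^ (f |σ| - |σ|)`; for `f = 0` one gets the Lebesgue null sets, for
`f n = (1 - s) n` the null sets of the `s`-dimensional Hausdorff measure). It is a null set if and
only if for every `ε > 0` there are infinitely many `N` with `f N ≤ 2 ^ ((log N) ^ ε)`. The same
holds for the much larger set of the oracles relative to which the parity of every function in `#P`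
is in the polynomial hierarchy with polynomial advice, and for all sets between them.
-/

namespace Pool.Agent.Results.MP_381749_lc.OracleSize

open Pool.Agent.NPC Pool.Agent.H620R2.Gauge Pool.Agent.H274R3.Sharp Filter

/-- The exact gauge threshold for the set of oracles relative to which counting is easy. -/
theorem result (f : ℕ → ℝ) :
    (Null f {A : Oracle | CountingEasy A} ↔
      ∀ ε : ℝ, 0 < ε → ∃ᶠ N : ℕ in atTop, f N ≤ 2 ^ (Real.logb 2 N) ^ ε) ∧
    (Null f {A : Oracle | ParityInPHpoly A} ↔
      ∀ ε : ℝ, 0 < ε → ∃ᶠ N : ℕ in atTop, f N ≤ 2 ^ (Real.logb 2 N) ^ ε) ∧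
    (∀ O : Set Oracle, {A : Oracle | CountingEasy A} ⊆ O → O ⊆ {A : Oracle | ParityInPHpoly A} →
      (Null f O ↔
        ∀ ε : ℝ, 0 < ε → ∃ᶠ N : ℕ in atTop, f N ≤ 2 ^ (Real.logb 2 N) ^ ε)) ∧
    {A : Oracle | CountingEasy A} ⊆ {A : Oracle | ParityInPHpoly A} :=
  main f

end Pool.Agent.Results.MP_381749_lc.OracleSize
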