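import Pool.Agent.H549R2.PM10

/-!
# MP_381749_lc: perfect matchings of interval graphs that are split graphs

The classes `SharpP` and `FP`, Turing reductions and `SharpPHard` are defined in
`Pool/Agent/H527R2/SharpP.lean`, `PolyTime` (Mathlib Turing machines) and the bit code `bits` in
`Pool/Agent/NPC/Defs.lean`, `intervalGraph`, `IsSplit` and `pm` in `Pool/Agent/H549R2/PM8.lean`.
The reduction is in `Pool/Agent/H549R2/PM1.lean` to `PM10.lean`.
-/

namespace Pool.Agent.Results.MP_381749_lc.SplitInterval

open Pool.Agent.NPC Pool.Agent.NPC.Cnt Pool.Agent.NPC.H549PM Pool.Agent.H549R2.PM

/-- **Counting perfect matchings of interval graphs is `#P`-complete, even for interval graphs that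
are split graphs, and Q1 fails iff it can be done in polynomial time.**
(1) `#P ⊆ FP` iff some polynomial-time function computes, from every list of intervals whose
intersection graph is a split graph, the number of perfect matchings of this graph.
(2) The function assigning to a list of intervals the number of perfect matchings of its
intersection graph is in `#P` and is `#P`-hard under polynomial-time Turing reductions.
(3) So is the function that has this value for the lists with a split intersection graph and the
value `0` for all other inputs (hardness). -/
theorem result :
    ((∀ f : List Bool → ℕ, SharpP f → FP f) ↔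
      ∃ g : List Bool → List Bool, PolyTime g ∧
        ∀ l : List (ℕ × ℕ), IsSplit (intervalGraph l) →
          g (bits l) = (Nat.card {M : (intervalGraph l).Subgraph // M.IsPerfectMatching}).bits) ∧
    (SharpP (strFn fun l : List (ℕ × ℕ) =>
        Nat.card {M : (intervalGraph l).Subgraph // M.IsPerfectMatching}) ∧
      SharpPHard (strFn fun l : List (ℕ × ℕ) =>
        Nat.card {M : (intervalGraph l).Subgraph // M.IsPerfectMatching})) ∧
    SharpPHard (strFn pmSplit) :=
  ⟨fp_iff_split, ⟨sharpP_pm, hard_pm⟩, hard_pmSplit⟩

end Pool.Agent.Results.MP_381749_lc.SplitInterval
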