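import Pool.Agent.H334R5.Ct.Final

/-!
# #P and FP: excluding one threshold pattern

Let `x₁, …, xₘ` be polynomially many strings such that exactly the first `j` of them belong to `A`.
The theorem says that every function in `#P` can be computed in polynomial time if and only if, for
some `PP`-hard set `A`, a number `k ≠ j` can be found in polynomial time.

Polynomial time is Mathlib's `Turing.TM2ComputableInPolyTime` (through `Pool.Agent.NPC.PolyTime`).
`SharpP` and `FP` are in `Pool.Agent.H527R2.SharpP`, the class `PP` (`InPPc`) is in
`Pool.Agent.H578R2.Med.PP`, `PPHard` is in `Pool.Agent.H334R5.Ct.Stmts`, `Pattern` is in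
`Pool.Agent.H334R5.Nd.Defs`, `DetExcluder` is in `Pool.Agent.H334R5.Nd.Det`.
-/

set_option autoImplicit false

namespace Pool.Agent.Results.MP_381749_lc.ThresholdExclusion

open Pool.Agent.NPC.Cnt Pool.Agent.H334R5.Nd Pool.Agent.H334R5.Ct

/-- `#P ⊆ FP` if and only if for some `PP`-hard set `A` a polynomial-time algorithm finds, for every
list of `m ≥ q(n)` strings of length at most `n` which has a threshold pattern (the first `j`
strings are in `A`, the others are not), a number `k ≤ m` with `k ≠ j`. -/
theorem result :
    (∃ (A : Set (List Bool)) (q : Polynomial ℕ) (E : List (List Bool) → ℕ),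
      PPHard A ∧ DetExcluder A q E) ↔ ∀ f : List Bool → ℕ, SharpP f → FP f :=
  sharp_iff

end Pool.Agent.Results.MP_381749_lc.ThresholdExclusion
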